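import Pool.Agent.H24.SCG2.Stmts1
import Pool.Agent.H26.SCG.LP

/-!
Module DPAR of the project SCG2: existence of a parabolic element.
-/

set_option autoImplicit false

namespace Pool.Agent.H41.SCG2

open Matrix Pool.SCG OnePoint Pool.Agent.H26.SCG

variable {F : Type} [Field F]

/-- homogeneous coordinates, first one -/
noncomputable def p0 : Om F → AlgebraicClosure F
  | ∞ => 1
  | (z : AlgebraicClosure F) => z

/-- homogeneous coordinates, second one -/
noncomputable def p1 : Om F → AlgebraicClosure F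
  | ∞ => 0
  | (_ : AlgebraicClosure F) => 1

theorem p0_infty : p0 (∞ : Om F) = 1 := rfl
theorem p1_infty : p1 (∞ : Om F) = 0 := rfl
theorem p0_coe (z : AlgebraicClosure F) : p0 (z : Om F) = z := rfl
theorem p1_coe (z : AlgebraicClosure F) : p1 (z : Om F) = 1 := rfl

theorem p_ne (x : Om F) : p0 x ≠ 0 ∨ p1 x ≠ 0 := by
  induction x using OnePoint.rec with
  | infty => left; rw [p0_infty]; exact one_ne_zero
  | coe k => right; rw [p1_coe]; exact one_ne_zero

theorem p_det {x y : Om F} (h : x ≠ y) : p0 x * p1 y - p1 x * p0 y ≠ 0 := by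
  induction x using OnePoint.rec with
  | infty =>
    induction y using OnePoint.rec with
    | infty => exact absurd rfl h
    | coe k => rw [p0_infty, p1_infty, p1_coe]; simp
  | coe k =>
    induction y using OnePoint.rec with
    | infty => rw [p0_infty, p1_infty, p1_coe]; simp
    | coe l =>
      rw [p0_coe, p1_coe, p0_coe, p1_coe]
      intro h1
      apply h
      rw [OnePoint.coe_eq_coe]
      linear_combination h1

theorem act_p (g : GL (Fin 2) F) (x : Om F) : ∃ c : AlgebraicClosure F,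
    am F ((g : M2 F) 0 0) * p0 x + am F ((g : M2 F) 0 1) * p1 x = c * p0 (act F g x) ∧
    am F ((g : M2 F) 1 0) * p0 x + am F ((g : M2 F) 1 1) * p1 x = c * p1 (act F g x) := by
  induction x using OnePoint.rec with
  | infty =>
    by_cases h : (g : M2 F) 1 0 = 0
    · rw [(act_infty g).2 h, p0_infty, p1_infty]
      exact ⟨am F ((g : M2 F) 0 0), by ring, by rw [h, map_zero]; ring⟩
    · have h' : am F ((g : M2 F) 1 0) ≠ 0 := (_root_.map_ne_zero _).2 h
      rw [act_infty_ne g h, p0_infty, p1_infty, p0_coe, p1_coe]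
      refine ⟨am F ((g : M2 F) 1 0), ?_, by ring⟩
      field_simp
      ring
  | coe k =>
    by_cases h : am F ((g : M2 F) 1 0) * k + am F ((g : M2 F) 1 1) = 0
    · have h1 : act F g (k : Om F) = ∞ := by
        classical
        rw [act_apply, smul_some_eq_ite]
        have h' : (Matrix.GeneralLinearGroup.map (am F) g) 1 0 * k +
          (Matrix.GeneralLinearGroup.map (am F) g) 1 1 = 0 := h
        rw [if_pos h']
      rw [h1, p0_infty, p1_infty, p0_coe, p1_coe]
      exact ⟨am F ((g : M2 F) 0 0) * k + am F ((g : M2 F) 0 1), by ring, by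
        rw [mul_one, h]; ring⟩
    · rw [act_coe g k h, p0_coe, p1_coe, p0_coe, p1_coe]
      refine ⟨am F ((g : M2 F) 1 0) * k + am F ((g : M2 F) 1 1), ?_, by ring⟩
      rw [mul_one, mul_div_assoc', mul_div_cancel_left₀ _ h]

/-- a common fixed point -/
theorem common {h g : GL (Fin 2) F} {x : Om F} (h1 : act F h x = x) (h2 : act F g x = x) :
    ((h : M2 F) * (g : M2 F) - (g : M2 F) * (h : M2 F)).det = 0 := by
  obtain ⟨c, c0, c1⟩ := act_p h x
  obtain ⟨d, d0, d1⟩ := act_p g x
  rw [h1] at c0 c1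
  rw [h2] at d0 d1
  apply (_root_.map_eq_zero (am F)).1
  have e0 : am F ((((h : M2 F) * (g : M2 F) - (g : M2 F) * (h : M2 F))) 0 0) * p0 x +
      am F ((((h : M2 F) * (g : M2 F) - (g : M2 F) * (h : M2 F))) 0 1) * p1 x = 0 := by
    simp only [Matrix.sub_apply, Matrix.mul_apply, Fin.sum_univ_two, map_sub, map_add, map_mul]
    linear_combination am F ((h : M2 F) 0 0) * d0 + am F ((h : M2 F) 0 1) * d1 -
      am F ((g : M2 F) 0 0) * c0 - am F ((g : M2 F) 0 1) * c1 + d * c0 - c * d0
  have e1 : am F ((((h : M2 F) * (g : M2 F) - (g : M2 F) * (h : M2 F))) 1 0) * p0 x +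
      am F ((((h : M2 F) * (g : M2 F) - (g : M2 F) * (h : M2 F))) 1 1) * p1 x = 0 := by
    simp only [Matrix.sub_apply, Matrix.mul_apply, Fin.sum_univ_two, map_sub, map_add, map_mul]
    linear_combination am F ((h : M2 F) 1 0) * d0 + am F ((h : M2 F) 1 1) * d1 -
      am F ((g : M2 F) 1 0) * c0 - am F ((g : M2 F) 1 1) * c1 + d * c1 - c * d1
  generalize (h : M2 F) * (g : M2 F) - (g : M2 F) * (h : M2 F) = C at e0 e1 ⊢
  rw [det_fin_two, map_sub, map_mul, map_mul]
  rcases p_ne x with hx | hx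
  · apply (mul_eq_zero.1 (?_ : _ * p0 x = 0)).resolve_right hx
    linear_combination am F (C 1 1) * e0 - am F (C 0 1) * e1
  · apply (mul_eq_zero.1 (?_ : _ * p1 x = 0)).resolve_right hx
    linear_combination am F (C 0 0) * e1 - am F (C 1 0) * e0

/-- an element interchanging two points has trace zero -/
theorem swap_tr {h : GL (Fin 2) F} {x y : Om F} (hxy : x ≠ y) (h1 : act F h x = y)
    (h2 : act F h y = x) : (h : M2 F).trace = 0 := by
  obtain ⟨c, c0, c1⟩ := act_p h x
  obtain ⟨d, d0, d1⟩ := act_p h y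
  rw [h1] at c0 c1
  rw [h2] at d0 d1
  apply (_root_.map_eq_zero (am F)).1
  rw [trace_fin_two, map_add]
  apply (mul_eq_zero.1 (?_ : _ * (p0 x * p1 y - p1 x * p0 y) = 0)).resolve_right (p_det hxy)
  linear_combination p1 y * c0 - p0 y * c1 + p0 x * d1 - p1 x * d0

/-- two points, `h` fixes both, `g` interchanges them -/
theorem swap_conj {h g : GL (Fin 2) F} {x y : Om F} (hxy : x ≠ y) (h1 : act F h x = x)
    (h2 : act F h y = y) (g1 : act F g x = y) (g2 : act F g y = x) :
    (g : M2 F) * (h : M2 F) = adjugate (h : M2 F) * (g : M2 F) := by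
  obtain ⟨a, a0, a1⟩ := act_p h x
  obtain ⟨b, b0, b1⟩ := act_p h y
  obtain ⟨c, c0, c1⟩ := act_p g x
  obtain ⟨d, d0, d1⟩ := act_p g y
  rw [h1] at a0 a1
  rw [h2] at b0 b1
  rw [g1] at c0 c1
  rw [g2] at d0 d1
  have hD := p_det hxy
  have htr : am F ((h : M2 F) 0 0) + am F ((h : M2 F) 1 1) = a + b := by
    apply sub_eq_zero.1
    apply (mul_eq_zero.1 (?_ : _ * (p0 x * p1 y - p1 x * p0 y) = 0)).resolve_right hD
    linear_combination p1 y * a0 - p0 y * a1 + p0 x * b1 - p1 x * b0
  have key : ∀ m n : AlgebraicClosure F, m * p0 x + n * p1 x = 0 → m * p0 y + n * p1 y = 0 →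
      m = 0 ∧ n = 0 := by
    intro m n e1 e2
    constructor
    · apply (mul_eq_zero.1 (?_ : _ * (p0 x * p1 y - p1 x * p0 y) = 0)).resolve_right hD
      linear_combination p1 y * e1 - p1 x * e2
    · apply (mul_eq_zero.1 (?_ : _ * (p0 x * p1 y - p1 x * p0 y) = 0)).resolve_right hD
      linear_combination p0 x * e2 - p0 y * e1
  have inj : ∀ s t : F, am F s - am F t = 0 → s = t := fun s t e =>
    (am F).injective (sub_eq_zero.1 e)
  have r0 := key
    (am F (((g : M2 F) * (h : M2 F)) 0 0) - am F ((adjugate (h : M2 F) * (g : M2 F)) 0 0))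
    (am F (((g : M2 F) * (h : M2 F)) 0 1) - am F ((adjugate (h : M2 F) * (g : M2 F)) 0 1)) ?_ ?_
  have r1 := key
    (am F (((g : M2 F) * (h : M2 F)) 1 0) - am F ((adjugate (h : M2 F) * (g : M2 F)) 1 0))
    (am F (((g : M2 F) * (h : M2 F)) 1 1) - am F ((adjugate (h : M2 F) * (g : M2 F)) 1 1)) ?_ ?_
  · ext i j
    fin_cases i <;> fin_cases j
    · exact inj _ _ r0.1
    · exact inj _ _ r0.2
    · exact inj _ _ r1.1
    · exact inj _ _ r1.2
  all_goals
    rw [adjugate_fin_two]
    simp only [Matrix.mul_apply, Fin.sum_univ_two, map_add, map_mul, Matrix.of_apply,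
      Matrix.cons_val', Matrix.cons_val_zero, Matrix.cons_val_one, Matrix.cons_val_fin_one,
      map_neg]
  · linear_combination am F ((g : M2 F) 1 0) * a0 + am F ((g : M2 F) 1 1) * a1 + a * c1 + am F ((h : M2 F) 1 0) * c0 - am F ((h : M2 F) 0 0) * c1 -
      c * (p1 y * htr - b1)
  · linear_combination am F ((g : M2 F) 1 0) * b0 + am F ((g : M2 F) 1 1) * b1 + b * d1 + am F ((h : M2 F) 1 0) * d0 - am F ((h : M2 F) 0 0) * d1 -
      d * (p1 x * htr - a1)
  · linear_combination am F ((g : M2 F) 0 0) * a0 + am F ((g : M2 F) 0 1) * a1 + a * c0 - am F ((h : M2 F) 1 1) * c0 + am F ((h : M2 F) 0 1) * c1 -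
      c * (p0 y * htr - b0)
  · linear_combination am F ((g : M2 F) 0 0) * b0 + am F ((g : M2 F) 0 1) * b1 + b * d0 - am F ((h : M2 F) 1 1) * d0 + am F ((h : M2 F) 0 1) * d1 -
      d * (p0 x * htr - a0)

theorem fixed_coe {u : GL (Fin 2) F} {z : AlgebraicClosure F}
    (h : am F ((u : M2 F) 1 0) * z ^ 2 + (am F ((u : M2 F) 1 1) - am F ((u : M2 F) 0 0)) * z -
      am F ((u : M2 F) 0 1) = 0) : act F u (z : Om F) = z := by
  have hdet : am F ((u : M2 F) 0 0) * am F ((u : M2 F) 1 1) -
      am F ((u : M2 F) 0 1) * am F ((u : M2 F) 1 0) ≠ 0 := by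
    have h1 := u.det_ne_zero
    rw [det_fin_two] at h1
    have h2 := (_root_.map_ne_zero (am F)).2 h1
    rw [map_sub, map_mul, map_mul] at h2
    exact h2
  have hne : am F ((u : M2 F) 1 0) * z + am F ((u : M2 F) 1 1) ≠ 0 := by
    intro h1
    apply hdet
    linear_combination am F ((u : M2 F) 0 0) * h1 + am F ((u : M2 F) 1 0) * h -
      am F ((u : M2 F) 1 0) * z * h1
  rw [act_coe u z hne, OnePoint.coe_eq_coe, div_eq_iff hne]
  linear_combination -h

theorem par_of {u : GL (Fin 2) F} {x : Om F} (h : ∀ y : Om F, act F u y = y ↔ y = x) :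
    (u : M2 F).trace ^ 2 = 4 * (u : M2 F).det ∧ ∀ c : F, (u : M2 F) ≠ !![c, 0; 0, c] := by
  constructor
  · by_cases h10 : (u : M2 F) 1 0 = 0
    · by_cases hd : (u : M2 F) 0 0 = (u : M2 F) 1 1
      · rw [trace_fin_two, det_fin_two, h10, hd]
        ring
      · exfalso
        have hd' : am F ((u : M2 F) 1 1) - am F ((u : M2 F) 0 0) ≠ 0 := by
          rw [← map_sub]
          exact (_root_.map_ne_zero (am F)).2 (fun e => hd (sub_eq_zero.1 e).symm)
        have h1 := (h ∞).1 ((act_infty u).2 h10)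
        have h2 := (h _).1 (fixed_coe (u := u) (z := am F ((u : M2 F) 0 1) /
          (am F ((u : M2 F) 1 1) - am F ((u : M2 F) 0 0))) (by
            rw [h10, map_zero]
            field_simp
            ring))
        exact OnePoint.coe_ne_infty _ (h2.trans h1.symm)
    · have h10' : am F ((u : M2 F) 1 0) ≠ 0 := (_root_.map_ne_zero (am F)).2 h10
      obtain ⟨c, hc⟩ : ∃ c : AlgebraicClosure F, am F ((u : M2 F) 1 0) * c ^ 2 +
          (am F ((u : M2 F) 1 1) - am F ((u : M2 F) 0 0)) * c - am F ((u : M2 F) 0 1) = 0 := by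
        have hd : (Polynomial.C (am F ((u : M2 F) 1 0)) * Polynomial.X ^ 2 +
            Polynomial.C (am F ((u : M2 F) 1 1) - am F ((u : M2 F) 0 0)) * Polynomial.X +
            Polynomial.C (-am F ((u : M2 F) 0 1)) :
            Polynomial (AlgebraicClosure F)).degree = 2 := Polynomial.degree_quadratic h10'
        obtain ⟨c, hc⟩ := IsAlgClosed.exists_root (Polynomial.C (am F ((u : M2 F) 1 0)) *
            Polynomial.X ^ 2 +
            Polynomial.C (am F ((u : M2 F) 1 1) - am F ((u : M2 F) 0 0)) * Polynomial.X +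
            Polynomial.C (-am F ((u : M2 F) 0 1))) (by rw [hd]; norm_num)
        refine ⟨c, ?_⟩
        simp only [Polynomial.IsRoot.def, Polynomial.eval_add, Polynomial.eval_mul,
          Polynomial.eval_C, Polynomial.eval_pow, Polynomial.eval_X] at hc
        linear_combination hc
      have h1 := (h _).1 (fixed_coe hc)
      have h2 := (h _).1 (fixed_coe (u := u) (z := (am F ((u : M2 F) 0 0) -
        am F ((u : M2 F) 1 1)) / am F ((u : M2 F) 1 0) - c) (by
          have e : am F ((u : M2 F) 1 0) * ((am F ((u : M2 F) 0 0) -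
            am F ((u : M2 F) 1 1)) / am F ((u : M2 F) 1 0)) = am F ((u : M2 F) 0 0) -
            am F ((u : M2 F) 1 1) := mul_div_cancel₀ _ h10'
          generalize (am F ((u : M2 F) 0 0) -
            am F ((u : M2 F) 1 1)) / am F ((u : M2 F) 1 0) = s at e ⊢
          linear_combination hc + (s - 2 * c) * e))
      have h3 := h1.trans h2.symm
      rw [OnePoint.coe_eq_coe] at h3
      have h4 : am F ((u : M2 F) 1 0) * (2 * c) = am F ((u : M2 F) 0 0) -
          am F ((u : M2 F) 1 1) := by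
        have e : am F ((u : M2 F) 1 0) * ((am F ((u : M2 F) 0 0) -
          am F ((u : M2 F) 1 1)) / am F ((u : M2 F) 1 0)) = am F ((u : M2 F) 0 0) -
          am F ((u : M2 F) 1 1) := mul_div_cancel₀ _ h10'
        rw [← e]
        linear_combination am F ((u : M2 F) 1 0) * h3
      apply sub_eq_zero.1
      apply (_root_.map_eq_zero (am F)).1
      rw [trace_fin_two, det_fin_two]
      simp only [map_sub, map_add, map_mul, map_pow, map_ofNat]
      linear_combination (am F ((u : M2 F) 1 0) * (2 * c) - (am F ((u : M2 F) 0 0) -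
          am F ((u : M2 F) 1 1))) * h4 - 4 * am F ((u : M2 F) 1 0) * hc
  · intro c hc
    have h0 := act_scalar hc
    have h1 := (h ∞).1 (by rw [h0]; rfl)
    have h2 := (h ((0 : AlgebraicClosure F) : Om F)).1 (by rw [h0]; rfl)
    exact OnePoint.coe_ne_infty _ (h2.trans h1.symm)

theorem dpar_thm (hDK0 : DK0Stmt) (hZAX : ZAXStmt) : DPARStmt := by
  intro F _ _ h2 X h g hh hg hdet htr hadj hpow
  by_contra hcon
  push Not at hcon
  have hZ := hZAX F h2 X
  let K := X.map (act F)
  have hfin : Finite K := by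
    refine Finite.of_surjective
      (fun x : X => (⟨act F x.1, Subgroup.mem_map_of_mem _ x.2⟩ : K)) ?_
    rintro ⟨y, hy⟩
    obtain ⟨x, hx, rfl⟩ := Subgroup.mem_map.1 hy
    exact ⟨⟨x, hx⟩, rfl⟩
  have hord := hDK0 K (Om F) hZ ?_ ?_ ?_ ⟨act F h, Subgroup.mem_map_of_mem _ hh⟩
  · have hpos := orderOf_pos (⟨act F h, Subgroup.mem_map_of_mem _ hh⟩ : K)
    have h1 := pow_orderOf_eq_one (⟨act F h, Subgroup.mem_map_of_mem _ hh⟩ : K)
    have h3 : act F (h ^ orderOf (⟨act F h, Subgroup.mem_map_of_mem _ hh⟩ : K)) = 1 := by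
      rw [map_pow]
      exact congrArg Subtype.val h1
    obtain ⟨c, hc⟩ := act_ker h3
    exact hpow _ c hpos hord hc
  · rintro ⟨s, hs⟩ x hpar
    obtain ⟨u, hu, rfl⟩ := Subgroup.mem_map.1 hs
    have h1 := par_of (u := u) (x := x) hpar
    obtain ⟨c, hc⟩ := hcon u hu h1.1
    exact h1.2 c hc
  · intro x
    by_contra hx
    push Not at hx
    exact hdet (common (x := x) (hx ⟨act F h, Subgroup.mem_map_of_mem _ hh⟩)
      (hx ⟨act F g, Subgroup.mem_map_of_mem _ hg⟩))
  · intro x y hxy
    by_contra hx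
    push Not at hx
    have inj : ∀ k : GL (Fin 2) F, act F k x = act F k y → x = y := fun k e =>
      (act F k).injective e
    have key : ∀ k ∈ X, (act F k x = x ∧ act F k y = y) ∨ (act F k x = y ∧ act F k y = x) := by
      intro k hk
      have h1 := (hx ⟨act F k, Subgroup.mem_map_of_mem _ hk⟩)
      have h3 : act F k x ≠ x → act F k x = y := h1.1
      have h4 : act F k y ≠ x → act F k y = y := h1.2
      by_cases e : act F k x = x
      · left
        refine ⟨e, h4 ?_⟩
        intro e2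
        exact hxy (inj k (e.trans e2.symm))
      · right
        have e3 := h3 e
        refine ⟨e3, ?_⟩
        by_contra e4
        exact hxy (inj k (e3.trans (h4 e4).symm))
    rcases key h hh with ⟨a1, a2⟩ | ⟨a1, a2⟩
    · rcases key g hg with ⟨b1, b2⟩ | ⟨b1, b2⟩
      · exact hdet (common a1 b1)
      · exact hadj (swap_conj hxy a1 a2 b1 b2)
    · exact htr (swap_tr hxy a1 a2)

end Pool.Agent.H41.SCG2
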