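import Pool.Agent.H24.SCG2.Stmts1

/-!
# DFIN: the end of the case where `b` and `d` commute only modulo scalars
-/

namespace Pool.Agent.H41.SCG2

open Matrix Pool.SCG

section

variable {F : Type} [Field F]

/-- the cyclic matrices occurring for `x = 0` -/
def Ac (F : Type*) [Field F] : Matrix (Fin 3) (Fin 3) F := !![0, 0, 1; -1, 0, 0; 0, -1, 0]

/-- the cyclic permutation matrix -/
def Pc (F : Type*) [Field F] : Matrix (Fin 3) (Fin 3) F := !![0, 1, 0; 0, 0, 1; 1, 0, 0]

theorem hQ_zero (h2 : (2 : F) ≠ 0) : hQ (1 : F) 0 = !![0, 0, -1; 0, -1, 0; -1, 0, 0] := by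
  ext i j
  fin_cases i <;> fin_cases j <;> simp [hQ] <;> field_simp

theorem Jm_hQ_zero (h2 : (2 : F) ≠ 0) : Jm F * hQ (1 : F) 0 = Ac F := by
  rw [hQ_zero h2]
  ext i j
  fin_cases i <;> fin_cases j <;> simp [Jm, Ac, Matrix.mul_apply, Fin.sum_univ_three]

theorem Ac_sq : Ac F * (Ac F).transpose = 1 := by
  ext i j
  fin_cases i <;> fin_cases j <;> simp [Ac, Matrix.mul_apply, Fin.sum_univ_three]

theorem Ac_cube : Ac F * Ac F * Ac F = dg 1 1 1 := by
  ext i j
  fin_cases i <;> fin_cases j <;> simp [Ac, dg, Matrix.mul_apply, Fin.sum_univ_three]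

theorem Pc_sq : Pc F * (Pc F).transpose = 1 := by
  ext i j
  fin_cases i <;> fin_cases j <;> simp [Pc, Matrix.mul_apply, Fin.sum_univ_three]

theorem Pc_cube : Pc F * Pc F * Pc F = dg 1 1 1 := by
  ext i j
  fin_cases i <;> fin_cases j <;> simp [Pc, dg, Matrix.mul_apply, Fin.sum_univ_three]

theorem Q0_sq : Q0 F * Q0 F = 1 := by
  ext i j
  fin_cases i <;> fin_cases j <;> simp [Q0, Matrix.mul_apply, Fin.sum_univ_three]

theorem Q0_tr : (Q0 F).transpose = Q0 F := by
  ext i j
  fin_cases i <;> fin_cases j <;> simp [Q0]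

theorem Jm_sq : Jm F * Jm F = 1 := by
  ext i j
  fin_cases i <;> fin_cases j <;> simp [Jm, Matrix.mul_apply, Fin.sum_univ_three]

theorem Jm_tr : (Jm F).transpose = Jm F := by
  ext i j
  fin_cases i <;> fin_cases j <;> simp [Jm]

/-- an outer orthogonal element whose matrix has cube one -/
theorem outer_cube {x e : Cor F} {A : M3 F} (hx : Is x true A) (he : Is e true (dg 1 1 1))
    (h1 : A * A.transpose = 1) (h3 : A * A * A = dg 1 1 1) : e = x * x * x := by
  have hxx : Is (x * x) false (A * A) := by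
    have := hx.mul_outer' hx h1
    rw [Matrix.transpose_transpose] at this
    simpa using this
  have hAA : (A * A) * (A.transpose * A.transpose) = 1 := by
    calc (A * A) * (A.transpose * A.transpose) = A * (A * A.transpose) * A.transpose := by
          simp only [mul_assoc]
      _ = 1 := by rw [h1, mul_one, h1]
  have hxxx : Is (x * x * x) true (A * A * A) := by
    have := hxx.mul_outer' hx hAA
    rw [Matrix.transpose_mul, Matrix.transpose_transpose] at this
    simpa using this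
  rw [h3] at hxxx
  exact he.ext hxxx

theorem one_zs : (1 : Cor F) ∈ Zs F := ⟨1, by simp, by rw [dg_one]; exact is_one⟩

theorem Q0_Jm_cyc (h2 : (2 : F) ≠ 0) :
    Q0 F * Jm F * ((hQ (1 : F) 0).transpose * Q0 F) = Pc F := by
  rw [hQ_zero h2]
  ext i j
  fin_cases i <;> fin_cases j <;>
    simp [Q0, Jm, Pc, Matrix.mul_apply, Fin.sum_univ_three, Matrix.transpose_apply]

theorem QJ_orth : (Q0 F * Jm F) * (Jm F * Q0 F) = 1 := by
  calc (Q0 F * Jm F) * (Jm F * Q0 F) = Q0 F * (Jm F * Jm F) * Q0 F := by simp only [mul_assoc]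
    _ = 1 := by rw [Jm_sq, mul_one, Q0_sq]

theorem hQ_one {i : F} (hi : 3 * i = 1) :
    hQ (1 : F) 1 = !![-i, 2 * i, -2 * i; 2 * i, -i, -2 * i; -2 * i, -2 * i, -i] := by
  have e : (2 * (1 : F) + 1 ^ 2)⁻¹ = i := by
    apply inv_eq_of_mul_eq_one_right
    linear_combination hi
  unfold hQ
  rw [e]
  ext a b
  fin_cases a <;> fin_cases b <;> simp <;> ring

theorem hQ_one_comm (h3 : (3 : F) ≠ 0) : (hQ (1 : F) 1).transpose * Jm F * hQ 1 1 = Jm F := by
  have hi : (3 : F) * 3⁻¹ = 1 := mul_inv_cancel₀ h3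
  rw [hQ_one hi]
  generalize (3 : F)⁻¹ = i at hi
  ext a b
  fin_cases a <;> fin_cases b <;>
    simp [Jm, Matrix.mul_apply, Fin.sum_univ_three, Matrix.transpose_apply] <;>
    grind

/-- the matrix of `c` for `x = -2` -/
theorem hQ_two (h2 : (2 : F) ≠ 0) {i : F} (hi : 3 * i = 1) :
    (hQ (1 : F) (-2)).transpose * Q0 F =
      !![-i, 2 * i, -2 * i; 2 * i, -i, -2 * i; -2 * i, -2 * i, -i] := by
  have e : (2 * (1 : F) + (-2) ^ 2)⁻¹ = 2⁻¹ * i := by
    apply inv_eq_of_mul_eq_one_right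
    have : (2 : F) * 2⁻¹ = 1 := mul_inv_cancel₀ h2
    linear_combination 2 * 2⁻¹ * hi + this
  unfold hQ
  rw [e]
  have h22 : (2 : F) * 2⁻¹ = 1 := mul_inv_cancel₀ h2
  generalize (2 : F)⁻¹ = j at h22
  ext a b
  fin_cases a <;> fin_cases b <;>
    simp [Q0, Matrix.mul_apply, Fin.sum_univ_three, Matrix.transpose_apply] <;> grind

theorem hQ_two_comm (h2 : (2 : F) ≠ 0) (h3 : (3 : F) ≠ 0) {b c : Cor F} (hb : Is b true (Jm F))
    (hc : Is c true ((hQ (1 : F) (-2)).transpose * Q0 F)) : b * c = c * b := by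
  have hi : (3 : F) * 3⁻¹ = 1 := mul_inv_cancel₀ h3
  have hJ : adjugate (Jm F) = Jm F := adj_unique hb.det Jm_sq
  rw [hQ_two h2 hi] at hc
  have ht : (!![-3⁻¹, 2 * 3⁻¹, -2 * 3⁻¹; 2 * 3⁻¹, -3⁻¹, -2 * 3⁻¹;
      -2 * 3⁻¹, -2 * 3⁻¹, -3⁻¹] : M3 F).transpose = !![-3⁻¹, 2 * 3⁻¹, -2 * 3⁻¹;
      2 * 3⁻¹, -3⁻¹, -2 * 3⁻¹; -2 * 3⁻¹, -2 * 3⁻¹, -3⁻¹] := by
    ext a b
    fin_cases a <;> fin_cases b <;> rfl
  rw [comm_outer_iff hb hc Jm_tr ht, hJ]
  generalize (3 : F)⁻¹ = i at hi
  ext a b
  fin_cases a <;> fin_cases b <;>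
    simp [Jm, Matrix.mul_apply, Fin.sum_univ_three] <;> grind

end

theorem dfin_thm (hSIDE : SIDEStmt) (hDBIG : DBIGStmt) (hW2 : W2Stmt) (hE34 : E34Stmt)
    (hPAR : PARStmt) : DFINStmt := by
  intro F _ _ hF a b c d e σ x hs hσ hx ha hb hd he hc
  obtain ⟨p, hp, hch, hp6, h2, h3, h5, h11, w, hw⟩ := hPAR F hF
  have ha2 : a * a = 1 := hs.ia.2
  have hb2 : b * b = 1 := hs.ib.2
  have hc2 : c * c = 1 := hs.ic.2
  have he2 : e * e = 1 := hs.ie.2
  have hσ3 : σ ^ 3 = 1 := by linear_combination (σ - 1) * hσ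
  have hσ0 : σ ≠ 0 := by
    rintro rfl
    simp at hσ
  have hσ1 : σ ≠ 1 := by
    rintro rfl
    apply h3
    linear_combination hσ
  -- membership in the closures
  have m1 : a ∈ Subgroup.closure ({a, b, c, d} ∪ Zs F : Set (Cor F)) :=
    Subgroup.subset_closure (Or.inl (by simp))
  have m2 : b ∈ Subgroup.closure ({a, b, c, d} ∪ Zs F : Set (Cor F)) :=
    Subgroup.subset_closure (Or.inl (by simp))
  have m3 : c ∈ Subgroup.closure ({a, b, c, d} ∪ Zs F : Set (Cor F)) :=
    Subgroup.subset_closure (Or.inl (by simp))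
  -- `x = 0`
  have hx0 : x ≠ 0 := by
    intro hx0
    subst hx0
    apply hs.v1
    rcases hc with hc | hc
    · have h1 : Is (b * c) true (Ac F) := by
        have := hb.mul_inner hc
        rwa [Jm_hQ_zero h2] at this
      rw [outer_cube h1 he Ac_sq Ac_cube]
      have h4 := Subgroup.mul_mem _ m2 m3
      exact Subgroup.mul_mem _ (Subgroup.mul_mem _ h4 h4) h4
    · have h1 : Is (a * b) false (Q0 F * Jm F) := by
        have := ha.mul_outer' hb Q0_sq
        rw [Q0_tr] at this
        simpa using this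
      have h6 : Is (a * b * c) true (Pc F) := by
        have := h1.mul_outer' hc QJ_orth
        rw [Matrix.transpose_mul, Q0_tr, Jm_tr, Q0_Jm_cyc h2] at this
        simpa using this
      rw [outer_cube h6 he Pc_sq Pc_cube]
      have h4 := Subgroup.mul_mem _ (Subgroup.mul_mem _ m1 m2) m3
      exact Subgroup.mul_mem _ (Subgroup.mul_mem _ h4 h4) h4
  -- the group `C`
  have hsub : ({c, d, e} ∪ Zs F : Set (Cor F)) ⊆ {b, c, d, e} ∪ Zs F := by
    apply Set.union_subset_union_left
    intro y hy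
    simp only [Set.mem_insert_iff, Set.mem_singleton_iff] at hy ⊢
    tauto
  have hle := Subgroup.closure_mono hsub
  have haC : a ∉ Subgroup.closure ({c, d, e} ∪ Zs F : Set (Cor F)) := by
    intro h
    exact hs.v2 (hle h)
  have hcC : c ∈ Subgroup.closure ({c, d, e} ∪ Zs F : Set (Cor F)) :=
    Subgroup.subset_closure (Or.inl (by simp))
  have hdC : d ∈ Subgroup.closure ({c, d, e} ∪ Zs F : Set (Cor F)) :=
    Subgroup.subset_closure (Or.inl (by simp))
  have heC : e ∈ Subgroup.closure ({c, d, e} ∪ Zs F : Set (Cor F)) :=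
    Subgroup.subset_closure (Or.inl (by simp))
  have hord : orderOf ((1 : F) / σ) = 3 := by
    apply orderOf_eq_prime
    · rw [div_pow, hσ3, one_pow, div_one]
    · rw [one_div]
      intro h
      exact hσ1 (inv_eq_one.1 h)
  have he' : Is e true (dg (1 : F) 1 1⁻¹) := by rwa [inv_one]
  have hx' : 2 * (1 : F) + x ^ 2 ≠ 0 := by rwa [mul_one]
  rcases hSIDE F h2 h3 _ a c d e 1 σ x one_ne_zero hσ0 hx' hx0 hord ha hd he' hc hcC hdC heC haC
    with hA | ⟨hcs, hx1⟩ | ⟨hcs, hx1⟩
  · -- the big case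
    have hU := hDBIG F hF _ a c d e σ x hσ hx hx0 ha hd he hc hcC hdC heC hA
    have hbB : b ∈ Subgroup.closure ({b, c, d, e} ∪ Zs F : Set (Cor F)) :=
      Subgroup.subset_closure (Or.inl (by simp))
    have heB : e ∈ Subgroup.closure ({b, c, d, e} ∪ Zs F : Set (Cor F)) :=
      Subgroup.subset_closure (Or.inl (by simp))
    have heb : Is (e * b) false (Jm F) := by
      have h1 : dg (1 : F) 1 1 * dg 1 1 1 = 1 := by
        rw [dg_mul, mul_one, dg_one]
      have := he.mul_outer' hb h1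
      rw [dg_transpose, dg_one, one_mul] at this
      simpa using this
    obtain ⟨q, hq, hqi⟩ := hW2 F h2 (Subgroup.closure ({b, c, d, e} ∪ Zs F : Set (Cor F)))
      (fun n => by
        obtain ⟨y, hy, hyi⟩ := (hU n).1
        exact ⟨y, hle hy, hyi⟩)
      (fun n => by
        obtain ⟨y, hy, hyi⟩ := (hU n).2
        exact ⟨y, hle hy, hyi⟩)
      ⟨e * b, Subgroup.mul_mem _ heB hbB, heb⟩
    have hae : a = e * q := by
      have h1 := he.mul_inner hqi
      rw [dg_one, one_mul] at h1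
      exact ha.ext h1
    apply hs.v2
    rw [hae]
    exact Subgroup.mul_mem _ heB hq
  · -- `c` inner, `x ^ 2 = 1`
    have hci : Is c false (hQ 1 x) := by
      rcases hc with hc | hc
      · exact hc
      · rw [hc.1] at hcs
        exact absurd hcs (by simp)
    have hx2 : x = 1 ∨ x = -1 := by
      have : (x - 1) * (x + 1) = 0 := by linear_combination hx1
      rcases mul_eq_zero.1 this with h | h
      · exact Or.inl (by linear_combination h)
      · exact Or.inr (by linear_combination h)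
    rcases hx2 with rfl | rfl
    · have := (comm_inner_outer_iff hci hb).2 (hQ_one_comm h3)
      exact hs.bc 1 one_zs (by rw [one_mul, this])
    · exact hs.v1 (hE34 F hF a b c d e σ hσ ha hb hd he (Or.inl hci))
  · -- `c` outer, `x ^ 2 = 4`
    have hco : Is c true ((hQ 1 x).transpose * Q0 F) := by
      rcases hc with hc | hc
      · rw [hc.1] at hcs
        exact absurd hcs (by simp)
      · exact hc
    have hx2 : x = 2 ∨ x = -2 := by
      have : (x - 2) * (x + 2) = 0 := by linear_combination hx1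
      rcases mul_eq_zero.1 this with h | h
      · exact Or.inl (by linear_combination h)
      · exact Or.inr (by linear_combination h)
    rcases hx2 with rfl | rfl
    · exact hs.v1 (hE34 F hF a b c d e σ hσ ha hb hd he (Or.inr hco))
    · exact hs.bc 1 one_zs (by rw [one_mul]; exact hQ_two_comm h2 h3 hb hco)

end Pool.Agent.H41.SCG2
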